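import Pool.Agent.W580.SH.StmB

/-!
Project SH, part BABS: the abstract theorem of case B from the counting argument.
-/

set_option autoImplicit false

namespace Pool.Agent.W605.SH.BABS

open Finset
open Pool.Agent.W580.SH

theorem main (hM : S_MIN) (hN : S_NOSTUCK) (hF : S_FOUR) (hQ : S_NOQUAD) (hC : S_COUNT) :
    S_BABS := by
  classical
  intro R _ _ I A O θ h
  refine hC R I A (fun r => O r = θ) h.bin h.supp ?_
  intro J hJ hst
  have h1 := (hM R I A O θ h J hJ hst).2.2
  have h2 := hN R I A O θ h J hJ hst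
  have hθ : θ = 1 / 3 := le_antisymm h2 h1
  obtain ⟨K, hK, hK2⟩ := hF R I A O θ h hθ J hJ hst
  refine ⟨?_, fun l hl hlθ => hQ R I A O θ h J hJ l hl hlθ⟩
  have : J.filter (fun r => O r = θ) = K := by
    ext r
    rw [mem_filter, hK2]
  rw [this, hK]

end Pool.Agent.W605.SH.BABS
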